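import Pool.Agent.W758.AHC.Stm

/-! Project AHC: existence of the greedy sequence. -/

set_option autoImplicit false

namespace Pool.Agent.W271.AHC

open Pool.Agent.W758.AHC

theorem side : S_LO → S_LO2 → S_LO3 → S_LO4 → S_BASE → S_STEP → S_SIDE := by
  intro h1 h2 h3 h4 hb hs ι κ _ _ σ
  have hbase := hb h1 h4 ι κ σ
  have hstep := hs h2 h3 ι κ σ
  have key : ∀ n : ℕ, ∀ (C : Finset ι) (L : List ℕ), (σ.S \ C).card = n → (∀ r ∈ L, 2 ≤ r) →
      C.card = σ.T.card + L.sum → σ.Inv C (M0 σ.T.card * (L.map SS).prod) →
      ∃ (C : Finset ι) (L : List ℕ), (∀ r ∈ L, 2 ≤ r) ∧ C.card = σ.T.card + L.sum ∧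
        σ.Inv C (M0 σ.T.card * (L.map SS).prod) ∧ (∀ k ∈ σ.K, (σ.N k \ C).card ≤ 1) := by
    intro n
    induction n using Nat.strong_induction_on with
    | _ n ih =>
      intro C L hn hL hC hI
      by_cases hk : ∃ k ∈ σ.K, 2 ≤ (σ.N k \ C).card
      · obtain ⟨k, hkK, hk2⟩ := hk
        have hne : (σ.N k \ C).Nonempty := Finset.card_pos.mp (by omega)
        have hI' := hstep C _ k hI hkK hne
        have hNS : σ.N k ⊆ σ.S := Finset.filter_subset _ _
        have hlt : (σ.S \ (C ∪ σ.N k)).card < (σ.S \ C).card := by
          apply Finset.card_lt_card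
          rw [Finset.ssubset_iff_of_subset]
          · obtain ⟨i, hi⟩ := hne
            rw [Finset.mem_sdiff] at hi
            refine ⟨i, Finset.mem_sdiff.mpr ⟨hNS hi.1, hi.2⟩, ?_⟩
            intro h
            rw [Finset.mem_sdiff, Finset.mem_union] at h
            exact h.2 (Or.inr hi.1)
          · exact Finset.sdiff_subset_sdiff (Finset.Subset.refl _) Finset.subset_union_left
        refine ih _ (by omega) (C ∪ σ.N k) ((σ.N k \ C).card :: L) rfl ?_ ?_ ?_
        · intro r hr
          rcases List.mem_cons.mp hr with h | h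
          · omega
          · exact hL r h
        · rw [← Finset.union_sdiff_self_eq_union, Finset.card_union_of_disjoint
            Finset.disjoint_sdiff, hC, List.sum_cons]
          omega
        · have he : M0 σ.T.card * (((σ.N k \ C).card :: L).map SS).prod =
              M0 σ.T.card * (L.map SS).prod * SS (σ.N k \ C).card := by
            rw [List.map_cons, List.prod_cons]
            ring
          rw [he]
          exact hI'
      · refine ⟨C, L, hL, hC, hI, ?_⟩
        intro k hkK
        by_contra hcon
        exact hk ⟨k, hkK, by omega⟩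
  refine key _ σ.T [] rfl ?_ ?_ ?_
  · intro r hr
    exact absurd hr List.not_mem_nil
  · simp
  · simpa using hbase

end Pool.Agent.W271.AHC
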